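import Pool.Agent.W_MP_fd63cb_lc.General

/-!
Every linear information inequality with computable real coefficients holds for prefix complexity
with precision `O(1)`.
-/

set_option autoImplicit false

namespace Pool.Agent.Results.MP_fd63cb_lc.ComputableCoefficients

/-- `K` is the pointwise minimum of a computable function, i.e. upper semicomputable. -/
def UpperSemicomputable (K : ℕ → ℕ) : Prop :=
  ∃ f : ℕ → ℕ → ℕ, Computable₂ f ∧ ∀ x, (∀ t, K x ≤ f x t) ∧ ∃ t, f x t = K x

/-- Kraft's inequality `∑ 2 ^ (-K x) ≤ 1`. -/
def KraftBounded (K : ℕ → ℕ) : Prop :=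
  Summable (fun x : ℕ => ((1 : ℝ) / 2) ^ K x) ∧ (∑' x : ℕ, ((1 : ℝ) / 2) ^ K x) ≤ 1

/-- `K` is (a version of) prefix complexity: it is upper semicomputable, satisfies Kraft's
inequality, and is minimal, up to an additive constant, among all such functions. -/
def IsKP (K : ℕ → ℕ) : Prop :=
  UpperSemicomputable K ∧ KraftBounded K ∧
    ∀ K' : ℕ → ℕ, UpperSemicomputable K' → KraftBounded K' → ∃ c : ℕ, ∀ x, K x ≤ K' x + c

/-- A computable real number: one can compute dyadic approximations of any precision. -/
def ComputableReal (r : ℝ) : Prop :=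
  ∃ a b : ℕ → ℕ, Computable a ∧ Computable b ∧
    ∀ k, |r - ((a k : ℝ) - (b k : ℝ)) / 2 ^ k| ≤ 1 / 2 ^ k

/-- Shannon entropy (natural logarithms) of the subtuple `(ξ i)`, `i ∈ S`, of the random tuple `ξ`
with distribution `p`. -/
noncomputable def entropy {n m : ℕ} (p : (Fin n → Fin m) → ℝ) (S : Finset (Fin n)) : ℝ :=
  ∑ y : S → Fin m, Real.negMulLog (∑ z : Fin n → Fin m, if (∀ i : S, z i = y i) then p z else 0)

/-- The coefficients `lam` give a linear information inequality on `n` variables. -/
def IsInformationInequality {n : ℕ} (lam : Finset (Fin n) → ℝ) : Prop :=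
  ∀ (m : ℕ) (p : (Fin n → Fin m) → ℝ), (∀ z, 0 ≤ p z) → (∑ z, p z = 1) →
    0 ≤ ∑ S : Finset (Fin n) with S.Nonempty, lam S * entropy p S

/-- The subtuple of `x` with indices in `S`, as a list in increasing order of indices. -/
def subtuple {n : ℕ} (x : Fin n → List Bool) (S : Finset (Fin n)) : List (List Bool) :=
  ((List.finRange n).filter (fun i => decide (i ∈ S))).map x

/-- Every linear information inequality with computable real coefficients holds for prefix
complexity up to an additive constant. -/
theorem result (K : ℕ → ℕ) (hK : IsKP K)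
    (code : List (List Bool) → ℕ) (hcode : Computable code) (hinj : Function.Injective code)
    (n : ℕ) (lam : Finset (Fin n) → ℝ) (hlam : ∀ S, ComputableReal (lam S))
    (hineq : IsInformationInequality lam) :
    ∃ c : ℝ, ∀ x : Fin n → List Bool,
      -c ≤ ∑ S : Finset (Fin n) with S.Nonempty, lam S * (K (code (subtuple x S)) : ℝ) := by
  classical
  let mu : Finset (Fin n) → ℝ := fun S => if S.Nonempty then lam S else 0
  have hfil : ∀ g : Finset (Fin n) → ℝ,
      ∑ S : Finset (Fin n), mu S * g S = ∑ S : Finset (Fin n) with S.Nonempty, lam S * g S := by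
    intro g
    rw [Finset.sum_filter]
    refine Finset.sum_congr rfl fun S _ => ?_
    by_cases hS : S.Nonempty
    · simp only [mu, if_pos hS]
    · simp only [mu, if_neg hS, zero_mul]
  obtain ⟨c, hc⟩ := Pool.Agent.W_MP_fd63cb_lc.general K hK.1 hK.2.1.1 hK.2.1.2
    (fun K' h => hK.2.2 K' h.1 ⟨h.2.1, h.2.2⟩) code hcode hinj mu
    (fun S => by
      by_cases hS : S.Nonempty
      · have h := hlam S
        unfold ComputableReal at h
        simpa only [mu, if_pos hS] using h
      · refine ⟨fun _ => 0, fun _ => 0, Computable.const 0, Computable.const 0, fun k => ?_⟩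
        simp only [mu, if_neg hS]
        simp)
    (fun m p hp hp1 => by
      have h := hineq m p hp hp1
      rw [← hfil] at h
      exact h)
  refine ⟨c, fun x => ?_⟩
  rw [← hfil]
  exact hc x

end Pool.Agent.Results.MP_fd63cb_lc.ComputableCoefficients
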