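import Pool.Agent.W_MP_fd63cb_lc.ZYKP

/-!
The Zhang-Yeung inequality holds for prefix complexity with precision `O(1)`.
-/

set_option autoImplicit false

namespace Pool.Agent.Results.MP_fd63cb_lc.ZhangYeungKP

/-- `K` is the pointwise minimum of a computable function, i.e. upper semicomputable. -/
def UpperSemicomputable (K : ℕ → ℕ) : Prop :=
  ∃ f : ℕ → ℕ → ℕ, Computable₂ f ∧ ∀ x, (∀ t, K x ≤ f x t) ∧ ∃ t, f x t = K x

/-- Kraft's inequality `∑ 2 ^ (-K x) ≤ 1`. -/
def KraftBounded (K : ℕ → ℕ) : Prop :=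
  Summable (fun x : ℕ => ((1 : ℝ) / 2) ^ K x) ∧ (∑' x : ℕ, ((1 : ℝ) / 2) ^ K x) ≤ 1

/-- `K` is (a version of) prefix complexity: it is upper semicomputable, satisfies Kraft's
inequality, and is minimal, up to an additive constant, among all such functions. -/
def IsKP (K : ℕ → ℕ) : Prop :=
  UpperSemicomputable K ∧ KraftBounded K ∧
    ∀ K' : ℕ → ℕ, UpperSemicomputable K' → KraftBounded K' → ∃ c : ℕ, ∀ x, K x ≤ K' x + c

/-- Complexity of a tuple of binary strings, through the encoding `code`. -/
def cplx (K : ℕ → ℕ) (code : List (List Bool) → ℕ) (l : List (List Bool)) : ℤ := K (code l)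

/-- The Zhang-Yeung inequality holds for prefix complexity up to an additive constant, for every
computable injective encoding of tuples of binary strings. -/
theorem result (K : ℕ → ℕ) (hK : IsKP K)
    (code : List (List Bool) → ℕ) (hcode : Computable code) (hinj : Function.Injective code) :
    ∃ c : ℕ, ∀ x₁ x₂ x₃ x₄ : List Bool,
      2 * (cplx K code [x₃] + cplx K code [x₄] - cplx K code [x₃, x₄]) ≤
        (cplx K code [x₁] + cplx K code [x₂] - cplx K code [x₁, x₂])
        + (cplx K code [x₁] + cplx K code [x₃, x₄] - cplx K code [x₁, x₃, x₄])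
        + 3 * (cplx K code [x₁, x₃] + cplx K code [x₁, x₄] - cplx K code [x₁, x₃, x₄]
            - cplx K code [x₁])
        + (cplx K code [x₂, x₃] + cplx K code [x₂, x₄] - cplx K code [x₂, x₃, x₄]
            - cplx K code [x₂])
        + c :=
  Pool.Agent.W_MP_fd63cb_lc.zy_kp K hK.1 hK.2.1.1 hK.2.1.2
    (fun K' h => hK.2.2 K' h.1 ⟨h.2.1, h.2.2⟩) code hcode hinj

end Pool.Agent.Results.MP_fd63cb_lc.ZhangYeungKP
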